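import Pool.Agent.P8H24.PG.Stm

/-!
# Project PG, package QR: signed sums of contractions of `M_k`

If all signed sums of `n ≥ 1` contractions of `M_k` have norm at least `c n`, then `2 k ≥ exp(n c ^ 2 / 2)`.
-/

set_option autoImplicit false

open Finset Module
open scoped InnerProductSpace

namespace Pool.Agent.P8H76.PG

open Pool.Agent.P8H24.PG

section trace

variable {k : ℕ}

/-- the trace -/
noncomputable def tr : Mk k →ₗ[ℂ] ℂ :=
  (LinearMap.trace ℂ (EuclideanSpace ℂ (Fin k))) ∘ₗ (ContinuousLinearMap.coeLM ℂ)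

lemma tr_eq (A : Mk k) (b : OrthonormalBasis (Fin k) ℂ (EuclideanSpace ℂ (Fin k))) :
    tr A = ∑ i, ⟪b i, A (b i)⟫_ℂ := by
  unfold tr
  rw [LinearMap.comp_apply]
  exact LinearMap.trace_eq_sum_inner _ b

lemma norm_tr_le (A : Mk k) : ‖tr A‖ ≤ k * ‖A‖ := by
  rw [tr_eq A (EuclideanSpace.basisFun (Fin k) ℂ)]
  refine le_trans (norm_sum_le _ _) ?_
  have : ∀ i ∈ (univ : Finset (Fin k)), ‖⟪(EuclideanSpace.basisFun (Fin k) ℂ) i,
      A ((EuclideanSpace.basisFun (Fin k) ℂ) i)⟫_ℂ‖ ≤ ‖A‖ := by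
    intro i _
    have h1 := norm_inner_le_norm (𝕜 := ℂ) ((EuclideanSpace.basisFun (Fin k) ℂ) i)
      (A ((EuclideanSpace.basisFun (Fin k) ℂ) i))
    have h2 := A.le_opNorm ((EuclideanSpace.basisFun (Fin k) ℂ) i)
    have h3 : ‖(EuclideanSpace.basisFun (Fin k) ℂ) i‖ = 1 := (EuclideanSpace.basisFun (Fin k) ℂ).norm_eq_one i
    rw [h3, one_mul] at h1
    rw [h3, mul_one] at h2
    exact le_trans h1 h2
  refine le_trans (Finset.sum_le_card_nsmul _ _ _ this) ?_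
  simp

/-- the adjoint -/
noncomputable def ad (X : Mk k) : Mk k := ContinuousLinearMap.adjoint X

lemma ad_inner (X : Mk k) (u v : EuclideanSpace ℂ (Fin k)) : ⟪u, (ad X) v⟫_ℂ = ⟪X u, v⟫_ℂ :=
  ContinuousLinearMap.adjoint_inner_right X u v

lemma inner_ad (X : Mk k) (u v : EuclideanSpace ℂ (Fin k)) : ⟪(ad X) u, v⟫_ℂ = ⟪u, X v⟫_ℂ :=
  ContinuousLinearMap.adjoint_inner_left X v u

lemma norm_ad (X : Mk k) : ‖ad X‖ = ‖X‖ := ContinuousLinearMap.adjoint.norm_map X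

lemma ad_sum {ι : Type} (s : Finset ι) (f : ι → Mk k) : ad (∑ i ∈ s, f i) = ∑ i ∈ s, ad (f i) := by
  unfold ad
  exact map_sum ContinuousLinearMap.adjoint f s

lemma ad_smul (c : ℝ) (X : Mk k) : ad ((c : ℂ) • X) = (c : ℂ) • ad X := by
  unfold ad
  rw [map_smulₛₗ]
  congr 1
  exact Complex.conj_ofReal c

lemma norm_pow_le_tr (hk : 0 < k) (X : Mk k) (p : ℕ) : ‖X‖ ^ (2 * p) ≤ (tr ((ad X * X) ^ p)).re := by
  classical
  have hS : ((ad X * X : Mk k) : EuclideanSpace ℂ (Fin k) →ₗ[ℂ] EuclideanSpace ℂ (Fin k)).IsSymmetric := by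
    intro u v
    show ⟪(ad X) (X u), v⟫_ℂ = ⟪u, (ad X) (X v)⟫_ℂ
    rw [inner_ad, ad_inner]
  have hn : finrank ℂ (EuclideanSpace ℂ (Fin k)) = k := by simp
  set b := hS.eigenvectorBasis hn with hb
  set μ := hS.eigenvalues hn with hμ
  have hap : ∀ i, (ad X * X) (b i) = (μ i : ℂ) • b i := fun i => hS.apply_eigenvectorBasis hn i
  have hpow : ∀ i, ((ad X * X) ^ p) (b i) = ((μ i : ℂ) ^ p) • b i := by
    intro i
    induction p with
    | zero => simp
    | succ p ih =>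
      have h0 : ((ad X * X) ^ (p + 1)) (b i) = ((ad X * X) ^ p) ((ad X * X) (b i)) := by
        rw [pow_succ]
        rfl
      rw [h0, hap i, map_smul, ih, smul_smul, pow_succ]
      congr 1
      ring
  have hXX : ∀ v : EuclideanSpace ℂ (Fin k), ⟪v, (ad X * X) v⟫_ℂ = ((‖X v‖ ^ 2 : ℝ) : ℂ) := by
    intro v
    show ⟪v, (ad X) (X v)⟫_ℂ = ((‖X v‖ ^ 2 : ℝ) : ℂ)
    rw [ad_inner, inner_self_eq_norm_sq_to_K]
    push_cast
    rfl
  have hnn : ∀ i, 0 ≤ μ i := by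
    intro i
    have h1 := hXX (b i)
    rw [hap i, inner_smul_right, inner_self_eq_norm_sq_to_K, b.norm_eq_one i] at h1
    have h2 : ((μ i : ℝ) : ℂ) = ((‖X (b i)‖ ^ 2 : ℝ) : ℂ) := by simpa using h1
    have h3 : μ i = ‖X (b i)‖ ^ 2 := by exact_mod_cast h2
    rw [h3]
    positivity
  have htr : tr ((ad X * X) ^ p) = ((∑ i, μ i ^ p : ℝ) : ℂ) := by
    rw [tr_eq _ b, Complex.ofReal_sum]
    refine Finset.sum_congr rfl fun i _ => ?_
    rw [hpow i, inner_smul_right, inner_self_eq_norm_sq_to_K, b.norm_eq_one i]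
    simp
  rw [htr, Complex.ofReal_re]
  obtain ⟨i0, -, hi0⟩ := Finset.exists_max_image (univ : Finset (Fin k)) μ ⟨⟨0, hk⟩, mem_univ _⟩
  have hX : ‖X‖ ≤ Real.sqrt (μ i0) := by
    refine ContinuousLinearMap.opNorm_le_bound X (Real.sqrt_nonneg _) fun v => ?_
    have h1 : ‖X v‖ ^ 2 ≤ μ i0 * ‖v‖ ^ 2 := by
      have h2 : ⟪v, (ad X * X) v⟫_ℂ = ((∑ i, μ i * ‖⟪b i, v⟫_ℂ‖ ^ 2 : ℝ) : ℂ) := by
        rw [← b.sum_inner_mul_inner v ((ad X * X) v), Complex.ofReal_sum]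
        refine Finset.sum_congr rfl fun i _ => ?_
        have h3 : ⟪b i, (ad X * X) v⟫_ℂ = (μ i : ℂ) * ⟪b i, v⟫_ℂ := by
          have h4 := hS (b i) v
          have h5 : ⟪(ad X * X) (b i), v⟫_ℂ = ⟪b i, (ad X * X) v⟫_ℂ := h4
          rw [← h5, hap i, inner_smul_left, Complex.conj_ofReal]
        rw [h3, ← inner_conj_symm v (b i)]
        have h6 : (starRingEnd ℂ) ⟪b i, v⟫_ℂ * ((μ i : ℂ) * ⟪b i, v⟫_ℂ) =
            (μ i : ℂ) * (⟪b i, v⟫_ℂ * (starRingEnd ℂ) ⟪b i, v⟫_ℂ) := by ring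
        rw [h6, Complex.mul_conj, Complex.normSq_eq_norm_sq]
        push_cast
        rfl
      rw [hXX v] at h2
      have h7 : ‖X v‖ ^ 2 = ∑ i, μ i * ‖⟪b i, v⟫_ℂ‖ ^ 2 := by exact_mod_cast h2
      rw [h7, ← b.sum_sq_norm_inner_right v, Finset.mul_sum]
      refine Finset.sum_le_sum fun i _ => ?_
      exact mul_le_mul_of_nonneg_right (hi0 i (mem_univ _)) (by positivity)
    have h8 : ‖X v‖ = Real.sqrt (‖X v‖ ^ 2) := (Real.sqrt_sq (norm_nonneg _)).symm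
    rw [h8]
    calc Real.sqrt (‖X v‖ ^ 2) ≤ Real.sqrt (μ i0 * ‖v‖ ^ 2) := Real.sqrt_le_sqrt h1
      _ = Real.sqrt (μ i0) * ‖v‖ := by
        rw [Real.sqrt_mul (hnn i0), Real.sqrt_sq (norm_nonneg _)]
  have hX2 : ‖X‖ ^ 2 ≤ μ i0 := by
    calc ‖X‖ ^ 2 ≤ (Real.sqrt (μ i0)) ^ 2 := pow_le_pow_left₀ (norm_nonneg _) hX 2
      _ = μ i0 := Real.sq_sqrt (hnn i0)
  calc ‖X‖ ^ (2 * p) = (‖X‖ ^ 2) ^ p := by rw [pow_mul]
    _ ≤ μ i0 ^ p := pow_le_pow_left₀ (by positivity) hX2 p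
    _ ≤ ∑ i, μ i ^ p := Finset.single_le_sum (f := fun i => μ i ^ p) (fun i _ => pow_nonneg (hnn i) p) (mem_univ i0)

end trace

section words

variable {k n : ℕ}

/-- the sign -/
noncomputable def sg (b : Bool) : ℝ := if b then 1 else -1

/-- the monomials in the signs -/
noncomputable def mon (a : Fin n → ℕ) (ω : Fin n → Bool) : ℝ := ∏ j, sg (ω j) ^ a j

/-- the signed sums -/
noncomputable def XX (T : Fin n → Mk k) (ω : Fin n → Bool) : Mk k := ∑ j, (sg (ω j) : ℂ) • T j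

/-- the moments of the commutative model -/
noncomputable def FF (a : Fin n → ℕ) (p : ℕ) : ℝ := ∑ ω : Fin n → Bool, mon a ω * (∑ j, sg (ω j)) ^ (2 * p)

lemma mon_add (a : Fin n → ℕ) (i : Fin n) (ω : Fin n → Bool) :
    mon (a + Pi.single i 1) ω = mon a ω * sg (ω i) := by
  unfold mon
  have h1 : ∀ j, sg (ω j) ^ ((a + Pi.single i 1 : Fin n → ℕ) j) =
      sg (ω j) ^ a j * sg (ω j) ^ (Pi.single i 1 : Fin n → ℕ) j := by
    intro j
    rw [Pi.add_apply, pow_add]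
  rw [Finset.prod_congr rfl fun j _ => h1 j, Finset.prod_mul_distrib]
  congr 1
  rw [Fintype.prod_eq_single i]
  · simp
  · intro j hj
    rw [Pi.single_eq_of_ne hj, pow_zero]

lemma sum_mon_nonneg (a : Fin n → ℕ) : 0 ≤ ∑ ω : Fin n → Bool, mon a ω := by
  have h1 : ∑ ω : Fin n → Bool, mon a ω = ∏ j, ∑ b : Bool, sg b ^ a j := by
    unfold mon
    rw [Finset.prod_univ_sum, Fintype.piFinset_univ]
  rw [h1]
  refine Finset.prod_nonneg fun j _ => ?_
  rw [Fintype.sum_bool]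
  simp only [sg, if_true, one_pow]
  rcases neg_one_pow_eq_or ℝ (a j) with h | h <;> simp [h]

lemma FF_succ (a : Fin n → ℕ) (p : ℕ) :
    FF a (p + 1) = ∑ i, ∑ j, FF (a + Pi.single i 1 + Pi.single j 1) p := by
  unfold FF
  have h1 : ∀ ω : Fin n → Bool, mon a ω * (∑ j, sg (ω j)) ^ (2 * (p + 1)) =
      ∑ i, ∑ j, mon (a + Pi.single i 1 + Pi.single j 1) ω * (∑ j, sg (ω j)) ^ (2 * p) := by
    intro ω
    simp only [mon_add]
    have h2 : ∀ i j : Fin n, mon a ω * sg (ω i) * sg (ω j) * (∑ j, sg (ω j)) ^ (2 * p) =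
        (mon a ω * (∑ j, sg (ω j)) ^ (2 * p)) * (sg (ω i) * sg (ω j)) := fun i j => by ring
    simp only [h2, ← Finset.mul_sum]
    rw [← Finset.sum_mul]
    ring
  rw [Finset.sum_congr rfl fun ω _ => h1 ω, Finset.sum_comm]
  refine Finset.sum_congr rfl fun i _ => ?_
  rw [Finset.sum_comm]

lemma FF_nonneg (p : ℕ) : ∀ a : Fin n → ℕ, 0 ≤ FF a p := by
  induction p with
  | zero =>
    intro a
    unfold FF
    simpa using sum_mon_nonneg a
  | succ p ih =>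
    intro a
    rw [FF_succ]
    exact Finset.sum_nonneg fun i _ => Finset.sum_nonneg fun j _ => ih _

lemma ad_mul_XX (T : Fin n → Mk k) (ω : Fin n → Bool) :
    ad (XX T ω) * XX T ω = ∑ i, ∑ j, ((sg (ω i) * sg (ω j) : ℝ) : ℂ) • (ad (T i) * T j) := by
  unfold XX
  rw [ad_sum, Finset.sum_mul_sum]
  refine Finset.sum_congr rfl fun i _ => Finset.sum_congr rfl fun j _ => ?_
  rw [ad_smul, smul_mul_smul_comm, Complex.ofReal_mul]

lemma words (T : Fin n → Mk k) (hT : ∀ j, ‖T j‖ ≤ 1) (p : ℕ) : ∀ (a : Fin n → ℕ) (A : Mk k),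
    ‖∑ ω : Fin n → Bool, (mon a ω : ℂ) * tr (A * (ad (XX T ω) * XX T ω) ^ p)‖ ≤ k * ‖A‖ * FF a p := by
  induction p with
  | zero =>
    intro a A
    have h1 : ∑ ω : Fin n → Bool, (mon a ω : ℂ) * tr (A * (ad (XX T ω) * XX T ω) ^ 0) =
        ((∑ ω : Fin n → Bool, mon a ω : ℝ) : ℂ) * tr A := by
      push_cast
      rw [Finset.sum_mul]
      refine Finset.sum_congr rfl fun ω _ => ?_
      rw [pow_zero, mul_one]
    rw [h1, norm_mul, Complex.norm_real, Real.norm_eq_abs, abs_of_nonneg (sum_mon_nonneg a)]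
    have h2 : FF a 0 = ∑ ω : Fin n → Bool, mon a ω := by
      unfold FF
      simp
    rw [h2, mul_comm]
    exact mul_le_mul_of_nonneg_right (norm_tr_le A) (sum_mon_nonneg a)
  | succ p ih =>
    intro a A
    have h1 : ∀ ω : Fin n → Bool, (mon a ω : ℂ) * tr (A * (ad (XX T ω) * XX T ω) ^ (p + 1)) =
        ∑ i, ∑ j, (mon (a + Pi.single i 1 + Pi.single j 1) ω : ℂ) *
          tr ((A * (ad (T i) * T j)) * (ad (XX T ω) * XX T ω) ^ p) := by
      intro ω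
      have h2 : A * (ad (XX T ω) * XX T ω) ^ (p + 1) = ∑ i, ∑ j, ((sg (ω i) * sg (ω j) : ℝ) : ℂ) •
          ((A * (ad (T i) * T j)) * (ad (XX T ω) * XX T ω) ^ p) := by
        rw [pow_succ', ← mul_assoc]
        conv_lhs => rw [ad_mul_XX]
        rw [Finset.mul_sum, Finset.sum_mul]
        refine Finset.sum_congr rfl fun i _ => ?_
        rw [Finset.mul_sum, Finset.sum_mul]
        refine Finset.sum_congr rfl fun j _ => ?_
        rw [mul_smul_comm, smul_mul_assoc, ad_mul_XX]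
      rw [h2, map_sum, Finset.mul_sum]
      refine Finset.sum_congr rfl fun i _ => ?_
      rw [map_sum, Finset.mul_sum]
      refine Finset.sum_congr rfl fun j _ => ?_
      rw [map_smul, smul_eq_mul, mon_add, mon_add]
      push_cast
      ring
    rw [Finset.sum_congr rfl fun ω _ => h1 ω, Finset.sum_comm, FF_succ, Finset.mul_sum]
    refine le_trans (norm_sum_le _ _) (Finset.sum_le_sum fun i _ => ?_)
    rw [Finset.sum_comm, Finset.mul_sum]
    refine le_trans (norm_sum_le _ _) (Finset.sum_le_sum fun j _ => ?_)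
    refine le_trans (ih _ _) ?_
    refine mul_le_mul_of_nonneg_right (mul_le_mul_of_nonneg_left ?_ (Nat.cast_nonneg k)) (FF_nonneg p _)
    calc ‖A * (ad (T i) * T j)‖ ≤ ‖A‖ * (‖ad (T i)‖ * ‖T j‖) :=
          le_trans (norm_mul_le _ _) (mul_le_mul_of_nonneg_left (norm_mul_le _ _) (norm_nonneg _))
      _ ≤ ‖A‖ * (1 * 1) := by
          refine mul_le_mul_of_nonneg_left ?_ (norm_nonneg _)
          rw [norm_ad]
          exact mul_le_mul (hT i) (hT j) (norm_nonneg _) zero_le_one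
      _ = ‖A‖ := by ring

lemma sum_exp (c : ℝ) : ∑ ω : Fin n → Bool, Real.exp (c * ∑ j, sg (ω j)) = (Real.exp c + Real.exp (-c)) ^ n := by
  have h1 : ∀ ω : Fin n → Bool, Real.exp (c * ∑ j, sg (ω j)) = ∏ j, Real.exp (c * sg (ω j)) := by
    intro ω
    rw [Finset.mul_sum, Real.exp_sum]
  have h2 : ∏ _j : Fin n, ∑ b : Bool, Real.exp (c * sg b) = ∑ ω : Fin n → Bool, ∏ j, Real.exp (c * sg (ω j)) := by
    rw [Finset.prod_univ_sum, Fintype.piFinset_univ]
  rw [Finset.sum_congr rfl fun ω _ => h1 ω, ← h2]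
  simp [sg]

lemma sum_cosh (c : ℝ) : ∑ ω : Fin n → Bool, Real.cosh (c * ∑ j, sg (ω j)) = 2 ^ n * Real.cosh c ^ n := by
  have h1 : ∀ ω : Fin n → Bool, Real.cosh (c * ∑ j, sg (ω j)) =
      (Real.exp (c * ∑ j, sg (ω j)) + Real.exp ((-c) * ∑ j, sg (ω j))) / 2 := by
    intro ω
    rw [Real.cosh_eq, neg_mul]
  rw [Finset.sum_congr rfl fun ω _ => h1 ω, ← Finset.sum_div, Finset.sum_add_distrib, sum_exp, sum_exp,
    neg_neg, ← mul_pow, Real.cosh_eq]
  have e1 : 2 * ((Real.exp c + Real.exp (-c)) / 2) = Real.exp c + Real.exp (-c) := by ring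
  rw [e1, add_comm (Real.exp (-c)) (Real.exp c)]
  ring

/-- the moments -/
lemma moments (hk : 0 < k) (T : Fin n → Mk k) (hT : ∀ j, ‖T j‖ ≤ 1) (c : ℝ) (hc : 0 ≤ c)
    (h : ∀ ω : Fin n → Bool, c * n ≤ ‖XX T ω‖) (p : ℕ) :
    2 ^ n * (c * n) ^ (2 * p) ≤ k * ∑ ω : Fin n → Bool, (∑ j, sg (ω j)) ^ (2 * p) := by
  have h1 : ∑ ω : Fin n → Bool, (tr ((ad (XX T ω) * XX T ω) ^ p)).re ≤
      k * ∑ ω : Fin n → Bool, (∑ j, sg (ω j)) ^ (2 * p) := by
    have h2 := words T hT p 0 1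
    have h3 : ∀ ω : Fin n → Bool, mon 0 ω = 1 := by
      intro ω
      unfold mon
      simp
    have h4 : FF (0 : Fin n → ℕ) p = ∑ ω : Fin n → Bool, (∑ j, sg (ω j)) ^ (2 * p) := by
      unfold FF
      simp [h3]
    rw [h4] at h2
    simp only [h3, Complex.ofReal_one, one_mul] at h2
    have h5 : ‖(1 : Mk k)‖ ≤ 1 := ContinuousLinearMap.norm_id_le
    have h6 : 0 ≤ ∑ ω : Fin n → Bool, (∑ j, sg (ω j)) ^ (2 * p) :=
      Finset.sum_nonneg fun ω _ => by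
        rw [pow_mul]
        positivity
    calc ∑ ω : Fin n → Bool, (tr ((ad (XX T ω) * XX T ω) ^ p)).re =
          (∑ ω : Fin n → Bool, tr ((ad (XX T ω) * XX T ω) ^ p)).re := by rw [Complex.re_sum]
      _ ≤ ‖∑ ω : Fin n → Bool, tr ((ad (XX T ω) * XX T ω) ^ p)‖ := Complex.re_le_norm _
      _ ≤ k * ‖(1 : Mk k)‖ * ∑ ω : Fin n → Bool, (∑ j, sg (ω j)) ^ (2 * p) := h2
      _ ≤ k * 1 * ∑ ω : Fin n → Bool, (∑ j, sg (ω j)) ^ (2 * p) :=
          mul_le_mul_of_nonneg_right (mul_le_mul_of_nonneg_left h5 (Nat.cast_nonneg k)) h6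
      _ = _ := by ring
  refine le_trans ?_ h1
  have h7 : ∀ ω ∈ (univ : Finset (Fin n → Bool)), (c * n) ^ (2 * p) ≤ (tr ((ad (XX T ω) * XX T ω) ^ p)).re := by
    intro ω _
    refine le_trans (pow_le_pow_left₀ (by positivity) (h ω) (2 * p)) (norm_pow_le_tr hk _ p)
  have h8 := Finset.card_nsmul_le_sum _ _ _ h7
  simp only [Finset.card_univ, Fintype.card_fun, Fintype.card_bool, Fintype.card_fin, nsmul_eq_mul] at h8
  push_cast at h8
  exact h8

end words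

/-- Package QR, for `n ≥ 1` -/
theorem qr (k n : ℕ) (T : ℕ → Mk k) (c : ℝ) (hn : 1 ≤ n) (hc : 0 < c) (hT : ∀ j < n, ‖T j‖ ≤ 1)
    (h : ∀ s : ℕ → ℝ, (∀ j, s j = 1 ∨ s j = -1) → c * n ≤ ‖∑ j ∈ range n, (s j : ℂ) • T j‖) :
    Real.exp (n * c ^ 2 / 2) ≤ 2 * k := by
  have hn0 : (0 : ℝ) < n := by exact_mod_cast hn
  have hh : ∀ ω : Fin n → Bool, c * n ≤ ‖XX (fun j : Fin n => T j) ω‖ := by
    intro ω
    have h1 := h (fun j => if hj : j < n then sg (ω ⟨j, hj⟩) else 1) (by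
      intro j
      by_cases hj : j < n
      · simp only [hj, dif_pos]
        unfold sg
        split_ifs <;> simp
      · simp [hj])
    rw [Finset.sum_range] at h1
    unfold XX
    simpa using h1
  have hk : 0 < k := by
    rcases Nat.eq_zero_or_pos k with h0 | h0
    · exfalso
      subst h0
      have h1 := hh (fun _ => true)
      have h2 : XX (fun j : Fin n => T j) (fun _ => true) = 0 := Subsingleton.elim _ _
      rw [h2, norm_zero] at h1
      have := mul_pos hc hn0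
      linarith
    · exact h0
  have hm := moments hk (fun j : Fin n => T j) (fun j => hT j j.2) c hc.le hh
  have hs1 : HasSum (fun p : ℕ => 2 ^ n * ((c * (c * n)) ^ (2 * p) / ((2 * p).factorial : ℝ)))
      (2 ^ n * Real.cosh (c * (c * n))) := (Real.hasSum_cosh (c * (c * n))).mul_left _
  have hs2 : HasSum (fun p : ℕ => (k : ℝ) * ∑ ω : Fin n → Bool, (c * ∑ j, sg (ω j)) ^ (2 * p) / ((2 * p).factorial : ℝ))
      (k * ∑ ω : Fin n → Bool, Real.cosh (c * ∑ j, sg (ω j))) :=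
    (hasSum_sum fun ω _ => Real.hasSum_cosh (c * ∑ j, sg (ω j))).mul_left _
  have hle : 2 ^ n * Real.cosh (c * (c * n)) ≤ k * ∑ ω : Fin n → Bool, Real.cosh (c * ∑ j, sg (ω j)) := by
    refine hasSum_le (fun p => ?_) hs1 hs2
    have h1 := mul_le_mul_of_nonneg_left (hm p) (by positivity : 0 ≤ c ^ (2 * p) / ((2 * p).factorial : ℝ))
    have e1 : c ^ (2 * p) / ((2 * p).factorial : ℝ) * (2 ^ n * (c * n) ^ (2 * p)) =
        2 ^ n * ((c * (c * n)) ^ (2 * p) / ((2 * p).factorial : ℝ)) := by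
      rw [mul_pow c (c * n)]
      ring
    have e2 : c ^ (2 * p) / ((2 * p).factorial : ℝ) * (k * ∑ ω : Fin n → Bool, (∑ j, sg (ω j)) ^ (2 * p)) =
        (k : ℝ) * ∑ ω : Fin n → Bool, (c * ∑ j, sg (ω j)) ^ (2 * p) / ((2 * p).factorial : ℝ) := by
      rw [← Finset.sum_div]
      simp only [mul_pow c (∑ j, sg _)]
      rw [← Finset.mul_sum]
      ring
    rw [e1, e2] at h1
    exact h1
  rw [sum_cosh] at hle
  have h2n : (0 : ℝ) < 2 ^ n := by positivity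
  have hle2 : Real.cosh (c * (c * n)) ≤ k * Real.cosh c ^ n := by
    have : 2 ^ n * Real.cosh (c * (c * n)) ≤ 2 ^ n * (k * Real.cosh c ^ n) := by
      calc 2 ^ n * Real.cosh (c * (c * n)) ≤ k * (2 ^ n * Real.cosh c ^ n) := hle
        _ = 2 ^ n * (k * Real.cosh c ^ n) := by ring
    exact le_of_mul_le_mul_left this h2n
  have h3 : Real.cosh c ^ n ≤ Real.exp (n * c ^ 2 / 2) := by
    calc Real.cosh c ^ n ≤ (Real.exp (c ^ 2 / 2)) ^ n :=
          pow_le_pow_left₀ (Real.cosh_pos c).le (Real.cosh_le_exp_half_sq c) n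
      _ = Real.exp (n * c ^ 2 / 2) := by
          rw [← Real.exp_nat_mul]
          congr 1
          ring
  have h4 : Real.exp (n * c ^ 2) / 2 ≤ Real.cosh (c * (c * n)) := by
    have e : c * (c * n) = n * c ^ 2 := by ring
    rw [e, Real.cosh_eq]
    have := Real.exp_pos (-(n * c ^ 2))
    linarith
  have h5 : Real.exp (n * c ^ 2) / 2 ≤ k * Real.exp (n * c ^ 2 / 2) :=
    le_trans h4 (le_trans hle2 (mul_le_mul_of_nonneg_left h3 (Nat.cast_nonneg k)))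
  have h6 : Real.exp (n * c ^ 2) = Real.exp (n * c ^ 2 / 2) * Real.exp (n * c ^ 2 / 2) := by
    rw [← Real.exp_add]
    congr 1
    ring
  rw [h6] at h5
  have h7 := Real.exp_pos (n * c ^ 2 / 2)
  have h8 : Real.exp (n * c ^ 2 / 2) * (Real.exp (n * c ^ 2 / 2)) ≤ Real.exp (n * c ^ 2 / 2) * (2 * k) := by
    linarith
  exact le_of_mul_le_mul_left h8 h7

end Pool.Agent.P8H76.PG
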