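import Pool.Agent.P8H24.PG.Stm

/-!
# Project PG, package TO: bringing `e(Re(z l^(Lj) c))` near arbitrary targets
-/

set_option autoImplicit false

open Finset

namespace Pool.Agent.P8H76.PG

open Pool.Agent.P8H24.PG

/-- the digits -/
lemma digits (a : ℕ → ℕ → ℝ) (y : ℕ → ℝ) (n : ℕ) : ∃ s : ℕ → ℝ, (∀ j, 0 ≤ s j ∧ s j < 1) ∧
    ∀ j < n, ∃ m : ℤ, s j + ∑ i ∈ range j, s i * a j i = y j + m := by
  induction n with
  | zero => exact ⟨fun _ => 0, fun _ => ⟨le_refl 0, zero_lt_one⟩, fun j hj => absurd hj (Nat.not_lt_zero j)⟩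
  | succ n ih =>
    obtain ⟨s, hs, hd⟩ := ih
    refine ⟨Function.update s n (Int.fract (y n - ∑ i ∈ range n, s i * a n i)), ?_, ?_⟩
    · intro j
      by_cases hj : j = n
      · subst hj
        rw [Function.update_self]
        exact ⟨Int.fract_nonneg _, Int.fract_lt_one _⟩
      · rw [Function.update_of_ne hj]
        exact hs j
    · intro j hj
      have hsum : ∑ i ∈ range j, Function.update s n (Int.fract (y n - ∑ i ∈ range n, s i * a n i)) i * a j i =
          ∑ i ∈ range j, s i * a j i := by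
        refine Finset.sum_congr rfl fun i hi => ?_
        have hi' := Finset.mem_range.mp hi
        rw [Function.update_of_ne (by omega)]
      rw [hsum]
      by_cases hjn : j = n
      · subst hjn
        rw [Function.update_self]
        refine ⟨-⌊y j - ∑ i ∈ range j, s i * a j i⌋, ?_⟩
        have := Int.fract_add_floor (y j - ∑ i ∈ range j, s i * a j i)
        push_cast
        linarith
      · rw [Function.update_of_ne hjn]
        exact hd j (by omega)

lemma geom_bound (N : ℕ) : ∑ i ∈ range N, ((1 : ℝ) / 7) ^ (1 + i) ≤ 1 / 6 := by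
  have h1 : ∀ i ∈ range N, ((1 : ℝ) / 7) ^ (1 + i) = (1 / 7) * (1 / 7) ^ i := fun i _ => by
    rw [pow_add, pow_one]
  rw [Finset.sum_congr rfl h1, ← Finset.mul_sum, geom_sum_eq (by norm_num)]
  have h2 : (0 : ℝ) ≤ (1 / 7) ^ N := by positivity
  have h3 : ((1 : ℝ) / 7) * (((1 / 7) ^ N - 1) / (1 / 7 - 1)) = 1 / 6 - (1 / 7) ^ N / 6 := by ring
  rw [h3]
  linarith

theorem t_to : S_TO := by
  intro l hl
  obtain ⟨L, hL⟩ : ∃ L : ℕ, 7 < ‖l‖ ^ L := pow_unbounded_of_one_lt 7 hl
  have hL1 : 1 ≤ L := by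
    rcases Nat.eq_zero_or_pos L with h | h
    · rw [h, pow_zero] at hL
      norm_num at hL
    · exact h
  refine ⟨L, hL1, fun c hc n t ht => ?_⟩
  obtain ⟨q, hqd⟩ : ∃ q : ℂ, q = l ^ L := ⟨_, rfl⟩
  have hq : 7 < ‖q‖ := by rw [hqd, norm_pow]; exact hL
  have hq0 : q ≠ 0 := by
    intro h
    rw [h, norm_zero] at hq
    norm_num at hq
  have hθ : ∀ j, ∃ θ : ℝ, t j = Complex.exp (2 * Real.pi * Complex.I * (θ : ℝ)) := by
    intro j
    refine ⟨Complex.arg (t j) / (2 * Real.pi), ?_⟩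
    have h1 := Complex.norm_mul_exp_arg_mul_I (t j)
    rw [ht j, Complex.ofReal_one, one_mul] at h1
    rw [← h1]
    congr 1
    rw [h1]
    push_cast
    have hpi : (Real.pi : ℂ) ≠ 0 := by exact_mod_cast Real.pi_ne_zero
    field_simp
  choose θ hθ using hθ
  obtain ⟨s, hs, hd⟩ := digits (fun j i => (q ^ j / q ^ i).re) (fun j => -θ j) n
  refine ⟨(∑ i ∈ range n, (s i : ℂ) / q ^ i) / c, fun j hj => ?_⟩
  obtain ⟨m, hm⟩ := hd j hj
  obtain ⟨r, hr⟩ : ∃ r : ℝ, r = ∑ i ∈ Ico (j + 1) n, s i * (q ^ j / q ^ i).re := ⟨_, rfl⟩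
  have hx : ((∑ i ∈ range n, (s i : ℂ) / q ^ i) / c * l ^ (L * j) * c).re = -θ j + m + r := by
    have h1 : (∑ i ∈ range n, (s i : ℂ) / q ^ i) / c * l ^ (L * j) * c =
        ∑ i ∈ range n, (s i : ℂ) * (q ^ j / q ^ i) := by
      rw [pow_mul, ← hqd]
      have h2 : (∑ i ∈ range n, (s i : ℂ) / q ^ i) / c * q ^ j * c = (∑ i ∈ range n, (s i : ℂ) / q ^ i) * q ^ j := by
        field_simp
      rw [h2, Finset.sum_mul]
      refine Finset.sum_congr rfl fun i _ => ?_
      ring
    rw [h1, Complex.re_sum]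
    have h2 : ∀ i ∈ range n, ((s i : ℂ) * (q ^ j / q ^ i)).re = s i * (q ^ j / q ^ i).re := fun i _ => by
      rw [Complex.re_ofReal_mul]
    rw [Finset.sum_congr rfl h2, Finset.range_eq_Ico,
      ← Finset.sum_Ico_consecutive _ (Nat.zero_le (j + 1)) (by omega : j + 1 ≤ n), ← hr,
      ← Finset.range_eq_Ico, Finset.sum_range_succ]
    have h3 : (q ^ j / q ^ j).re = 1 := by
      rw [div_self (pow_ne_zero j hq0)]
      simp
    rw [h3, mul_one]
    linarith
  have hrb : |r| ≤ 1 / 6 := by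
    rw [hr, Finset.sum_Ico_eq_sum_range]
    refine le_trans (Finset.abs_sum_le_sum_abs _ _) (le_trans (Finset.sum_le_sum fun i _ => ?_) (geom_bound (n - (j + 1))))
    rw [abs_mul]
    have h1 : |s (j + 1 + i)| ≤ 1 := by
      rw [abs_of_nonneg (hs _).1]
      exact (hs _).2.le
    have h2 : |(q ^ j / q ^ (j + 1 + i)).re| ≤ (1 / 7) ^ (1 + i) := by
      refine le_trans (Complex.abs_re_le_norm _) ?_
      have h3 : q ^ j / q ^ (j + 1 + i) = (1 / q) ^ (1 + i) := by
        have h4 := pow_ne_zero j hq0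
        have h5 := pow_ne_zero (1 + i) hq0
        rw [show j + 1 + i = j + (1 + i) by ring, pow_add q j, one_div, inv_pow]
        field_simp
      rw [h3, norm_pow, norm_div, norm_one]
      refine pow_le_pow_left₀ (by positivity) ?_ _
      exact one_div_le_one_div_of_le (by norm_num) hq.le
    calc |s (j + 1 + i)| * |(q ^ j / q ^ (j + 1 + i)).re| ≤ 1 * (1 / 7) ^ (1 + i) :=
          mul_le_mul h1 h2 (abs_nonneg _) zero_le_one
      _ = (1 / 7) ^ (1 + i) := one_mul _
  rw [hx, hθ j]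
  have he : Complex.exp (2 * Real.pi * Complex.I * (θ j : ℝ)) *
      Complex.exp (2 * Real.pi * Complex.I * ((-θ j + m + r : ℝ))) = Complex.exp (((2 * Real.pi * r : ℝ) : ℂ) * Complex.I) := by
    rw [← Complex.exp_add]
    have h1 : (2 * Real.pi * Complex.I * (θ j : ℝ) + 2 * Real.pi * Complex.I * ((-θ j + m + r : ℝ)) : ℂ) =
        ((2 * Real.pi * r : ℝ) : ℂ) * Complex.I + m * (2 * Real.pi * Complex.I) := by
      push_cast
      ring
    rw [h1, Complex.exp_add, Complex.exp_int_mul_two_pi_mul_I, mul_one]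
  rw [he, Complex.exp_ofReal_mul_I_re, ← Real.cos_abs, ← Real.cos_pi_div_three]
  have hpi := Real.pi_pos
  refine Real.cos_le_cos_of_nonneg_of_le_pi (abs_nonneg _) (by linarith) ?_
  rw [abs_mul, abs_of_pos (by positivity : 0 < 2 * Real.pi)]
  nlinarith

end Pool.Agent.P8H76.PG
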